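import Mathlib

/-!
# The Denjoy-Wolff set of contracting forward compositions of inner functions

There are contracting forward compositions `F_n = f_n ∘ ... ∘ f_1` of inner functions whose interior
orbits converge to the boundary, for which `∑ (1 - |F_n(0)|)` diverges, and whose Denjoy-Wolff set has
full measure. The rate of convergence of `F_n(0)` to the boundary may even be prescribed arbitrarily.
-/

set_option autoImplicit false

open Complex Metric Set Filter Topology MeasureTheory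
open scoped ComplexConjugate

namespace Pool.Agent.Results.MP_9b5b1e_an.DivergentFullMeasure

/-- `f` is an inner function: holomorphic on the unit disc, with values in the unit disc, and for
almost every `θ` in `(0, 2π]` the radial limit at `exp (iθ)` exists and has modulus one. -/
def IsInner (f : ℂ → ℂ) : Prop :=
  DifferentiableOn ℂ f (ball 0 1) ∧ MapsTo f (ball 0 1) (ball 0 1) ∧
    ∀ᵐ θ : ℝ ∂(volume.restrict (Ioc (0 : ℝ) (2 * Real.pi))), ∃ w : ℂ, ‖w‖ = 1 ∧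
      Tendsto (fun r : ℝ => f (r * exp (θ * I))) (𝓝[<] 1) (𝓝 w)

/-- The forward composition `F_n = f_n ∘ ... ∘ f_1` (and `F_0 = id`). -/
def fwd (f : ℕ → ℂ → ℂ) : ℕ → ℂ → ℂ
  | 0 => id
  | n + 1 => f (n + 1) ∘ fwd f n

/-- The hyperbolic distance of the unit disc, `2 artanh |(z - w) / (1 - conj w * z)|`. -/
noncomputable def hypDist (z w : ℂ) : ℝ :=
  Real.log ((1 + ‖(z - w) / (1 - conj w * z)‖) / (1 - ‖(z - w) / (1 - conj w * z)‖))

/-- `(F_n)` is contracting. -/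
def Contracting (F : ℕ → ℂ → ℂ) : Prop :=
  ∀ z ∈ ball (0 : ℂ) 1, ∀ w ∈ ball (0 : ℂ) 1,
    Tendsto (fun n => hypDist (F n z) (F n w)) atTop (𝓝 0)

/-- Interior orbits converge to the boundary. -/
def InteriorToBoundary (F : ℕ → ℂ → ℂ) : Prop :=
  ∀ z ∈ ball (0 : ℂ) 1, Tendsto (fun n => ‖F n z‖) atTop (𝓝 1)

/-- The Denjoy-Wolff set: the points `ζ` of the unit circle at which every `F_n`, `n ≥ 1`, has a
radial limit `L_n`, with `|L_n - F_n(0)| → 0`. -/
def DenjoyWolffSet (F : ℕ → ℂ → ℂ) : Set ℂ :=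
  {ζ | ‖ζ‖ = 1 ∧ ∃ L : ℕ → ℂ,
    (∀ n, 1 ≤ n → Tendsto (fun r : ℝ => F n (r * ζ)) (𝓝[<] 1) (𝓝 (L n))) ∧
      Tendsto (fun n => ‖L n - F n 0‖) atTop (𝓝 0)}

/-! ## Möbius maps -/

/-- the Möbius map `(z + a) / (1 + a z)` -/
noncomputable def mob (a : ℝ) (z : ℂ) : ℂ := (z + a) / (1 + a * z)

lemma den_ne {a : ℝ} (ha : |a| < 1) {z : ℂ} (hz : ‖z‖ ≤ 1) : 1 + (a : ℂ) * z ≠ 0 := by
  intro h
  have h1 : (a : ℂ) * z = -1 := by linear_combination h
  have h2 : |a| * ‖z‖ = 1 := by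
    rw [← Real.norm_eq_abs, ← Complex.norm_real, ← norm_mul, h1]; simp
  nlinarith [abs_nonneg a, norm_nonneg z]

lemma mob_norm_sq {a : ℝ} (ha : |a| < 1) {z : ℂ} (hz : ‖z‖ ≤ 1) :
    (1 - ‖mob a z‖ ^ 2) * ‖1 + (a : ℂ) * z‖ ^ 2 = (1 - a ^ 2) * (1 - ‖z‖ ^ 2) := by
  have hne := den_ne ha hz
  have h0 : ‖1 + (a : ℂ) * z‖ ≠ 0 := norm_ne_zero_iff.2 hne
  unfold mob
  rw [norm_div, div_pow, sub_mul, div_mul_cancel₀ _ (pow_ne_zero 2 h0), one_mul]
  rw [← Complex.normSq_eq_norm_sq, ← Complex.normSq_eq_norm_sq, ← Complex.normSq_eq_norm_sq,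
    Complex.normSq_apply, Complex.normSq_apply, Complex.normSq_apply]
  simp
  ring

lemma mob_norm_lt {a : ℝ} (ha : |a| < 1) {z : ℂ} (hz : ‖z‖ < 1) : ‖mob a z‖ < 1 := by
  have h := mob_norm_sq ha hz.le
  have hne := den_ne ha hz.le
  have h0 : 0 < ‖1 + (a : ℂ) * z‖ ^ 2 := by positivity
  have h1 : 0 < 1 - a ^ 2 := by nlinarith [sq_abs a, abs_nonneg a]
  have h2 : 0 < 1 - ‖z‖ ^ 2 := by nlinarith [norm_nonneg z]
  have h3 : 0 < 1 - ‖mob a z‖ ^ 2 := by
    by_contra hc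
    push Not at hc
    nlinarith [mul_pos h1 h2]
  nlinarith [norm_nonneg (mob a z)]

lemma mob_norm_eq {a : ℝ} (ha : |a| < 1) {z : ℂ} (hz : ‖z‖ = 1) : ‖mob a z‖ = 1 := by
  have h := mob_norm_sq ha hz.le
  have hne := den_ne ha hz.le
  have h0 : 0 < ‖1 + (a : ℂ) * z‖ ^ 2 := by positivity
  rw [hz] at h
  have h3 : 1 - ‖mob a z‖ ^ 2 = 0 := by
    have : (1 - ‖mob a z‖ ^ 2) * ‖1 + (a : ℂ) * z‖ ^ 2 = 0 := by rw [h]; ring
    exact (mul_eq_zero.1 this).resolve_right h0.ne'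
  nlinarith [norm_nonneg (mob a z), sq_nonneg (‖mob a z‖ - 1), sq_nonneg (‖mob a z‖ + 1)]

lemma mob_inv {a : ℝ} (ha : |a| < 1) {z : ℂ} (hz : ‖z‖ ≤ 1) : mob (-a) (mob a z) = z := by
  have hne := den_ne ha hz
  have h1 : (1 : ℂ) - (a : ℂ) ^ 2 ≠ 0 := by
    have : (1 : ℝ) - a ^ 2 ≠ 0 := by nlinarith [sq_abs a, abs_nonneg a]
    exact_mod_cast this
  unfold mob
  have h2 : 1 + ((-a : ℝ) : ℂ) * ((z + a) / (1 + a * z)) = (1 - (a : ℂ) ^ 2) / (1 + a * z) := by
    rw [← mul_div_assoc, one_add_div hne]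
    congr 1
    push_cast
    ring
  have h3 : (z + a) / (1 + a * z) + ((-a : ℝ) : ℂ) = z * (1 - (a : ℂ) ^ 2) / (1 + a * z) := by
    rw [div_add' _ _ _ hne]
    congr 1
    push_cast
    ring
  rw [h2, h3, div_div_div_cancel_right₀ hne, mul_div_assoc, div_self h1, mul_one]

lemma mob_continuousOn {a : ℝ} (ha : |a| < 1) : ContinuousOn (mob a) (closedBall 0 1) := by
  unfold mob
  apply ContinuousOn.div
  · fun_prop
  · fun_prop
  · intro z hz
    exact den_ne ha (mem_closedBall_zero_iff.1 hz)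

lemma mob_differentiableOn {a : ℝ} (ha : |a| < 1) : DifferentiableOn ℂ (mob a) (ball 0 1) := by
  unfold mob
  apply DifferentiableOn.div
  · fun_prop
  · fun_prop
  · intro z hz
    exact den_ne ha (mem_ball_zero_iff.1 hz).le

/-- a function continuous on the closed disc, of modulus one on the circle, is inner -/
lemma isInner_of {f : ℂ → ℂ} (hd : DifferentiableOn ℂ f (ball 0 1))
    (hm : MapsTo f (ball 0 1) (ball 0 1)) (hc : ContinuousOn f (closedBall 0 1))
    (h1 : ∀ z : ℂ, ‖z‖ = 1 → ‖f z‖ = 1) : IsInner f := by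
  refine ⟨hd, hm, Eventually.of_forall fun θ => ?_⟩
  have hn : ‖exp (θ * I)‖ = 1 := Complex.norm_exp_ofReal_mul_I θ
  exact ⟨f (exp (θ * I)), h1 _ hn, radial hc hn⟩
where
  radial {f : ℂ → ℂ} {ζ : ℂ} (hc : ContinuousOn f (closedBall 0 1)) (hn : ‖ζ‖ = 1) :
      Tendsto (fun r : ℝ => f (r * ζ)) (𝓝[<] 1) (𝓝 (f ζ)) := by
    have h2 : Tendsto (fun r : ℝ => (r : ℂ) * ζ) (𝓝[<] 1) (𝓝[closedBall 0 1] ζ) := by
      rw [tendsto_nhdsWithin_iff]
      constructor
      · have : Tendsto (fun r : ℝ => (r : ℂ) * ζ) (𝓝 1) (𝓝 (((1 : ℝ) : ℂ) * ζ)) :=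
          (Continuous.tendsto (by fun_prop) 1)
        rw [Complex.ofReal_one, one_mul] at this
        exact this.mono_left nhdsWithin_le_nhds
      · have h3 : ∀ᶠ r : ℝ in 𝓝[<] 1, 0 < r := by
          apply nhdsWithin_le_nhds
          exact lt_mem_nhds one_pos
        filter_upwards [h3, self_mem_nhdsWithin] with r hr hr1
        rw [mem_closedBall_zero_iff, norm_mul, hn, mul_one, Complex.norm_real, Real.norm_eq_abs,
          abs_of_pos hr]
        exact (mem_Iio.1 hr1).le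
    exact (hc ζ (by rw [mem_closedBall_zero_iff, hn])).tendsto.comp h2

lemma mob_hyp {a : ℝ} (ha : |a| < 1) {z w : ℂ} (hz : ‖z‖ < 1) (hw : ‖w‖ < 1) :
    ‖(mob a z - mob a w) / (1 - conj (mob a w) * mob a z)‖ = ‖(z - w) / (1 - conj w * z)‖ := by
  have hz' := den_ne ha hz.le
  have hw' := den_ne ha hw.le
  have hw'' : 1 + (a : ℂ) * conj w ≠ 0 := den_ne ha (by rw [Complex.norm_conj]; exact hw.le)
  have h1 : (1 : ℂ) - (a : ℂ) ^ 2 ≠ 0 := by
    have : (1 : ℝ) - a ^ 2 ≠ 0 := by nlinarith [sq_abs a, abs_nonneg a]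
    exact_mod_cast this
  have e1 : mob a z - mob a w = (1 - (a : ℂ) ^ 2) * (z - w) / ((1 + a * z) * (1 + a * w)) := by
    unfold mob
    rw [div_sub_div _ _ hz' hw']
    congr 1
    ring
  have e2 : 1 - conj (mob a w) * mob a z =
      (1 - (a : ℂ) ^ 2) * (1 - conj w * z) / ((1 + a * z) * (1 + a * conj w)) := by
    unfold mob
    rw [map_div₀, map_add, map_add, map_mul, Complex.conj_ofReal, map_one, div_mul_div_comm,
      one_sub_div (mul_ne_zero hw'' hz')]
    congr 1 <;> ring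
  have hcw : ‖1 + (a : ℂ) * conj w‖ = ‖1 + (a : ℂ) * w‖ := by
    rw [← Complex.norm_conj (1 + (a : ℂ) * w), map_add, map_mul, Complex.conj_ofReal, map_one]
  rw [e1, e2]
  simp only [norm_div, norm_mul]
  rw [hcw]
  have n1 : ‖(1 : ℂ) - (a : ℂ) ^ 2‖ ≠ 0 := norm_ne_zero_iff.2 h1
  have n2 : ‖1 + (a : ℂ) * z‖ ≠ 0 := norm_ne_zero_iff.2 hz'
  have n3 : ‖1 + (a : ℂ) * w‖ ≠ 0 := norm_ne_zero_iff.2 hw'
  field_simp

/-! ## The measure estimate -/

/-- lower bound for `|1 + e^{iφ}|` -/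
lemma one_add_exp (φ δ : ℝ) (h : δ < ‖((φ - Real.pi : ℝ) : AddCircle (2 * Real.pi))‖) :
    2 / Real.pi * δ ≤ ‖1 + exp (φ * I)‖ := by
  have hpi := Real.pi_pos
  rw [AddCircle.norm_eq' (2 * Real.pi) (by positivity)] at h
  obtain ⟨k, hk⟩ : ∃ k : ℤ, k = round ((2 * Real.pi)⁻¹ * (φ - Real.pi)) := ⟨_, rfl⟩
  obtain ⟨t, ht⟩ : ∃ t : ℝ, t = φ - Real.pi - k * (2 * Real.pi) := ⟨_, rfl⟩
  have h1 : 2 * Real.pi * |(2 * Real.pi)⁻¹ * (φ - Real.pi) - k| = |t| := by
    have e : t = 2 * Real.pi * ((2 * Real.pi)⁻¹ * (φ - Real.pi) - k) := by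
      rw [ht]; field_simp
    rw [e, abs_mul, abs_of_pos (by positivity : 0 < 2 * Real.pi)]
  have h2 : |t| ≤ Real.pi := by
    rw [← h1, hk]
    have := abs_sub_round ((2 * Real.pi)⁻¹ * (φ - Real.pi))
    nlinarith
  rw [← hk, h1] at h
  have h3 : exp (φ * I) = - exp (t * I) := by
    have e : (φ : ℂ) * I = t * I + Real.pi * I + k * (2 * Real.pi * I) := by
      rw [ht]; push_cast; ring
    rw [e, Complex.exp_add, Complex.exp_add, Complex.exp_pi_mul_I, Complex.exp_int_mul_two_pi_mul_I]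
    ring
  have h4 : ‖1 + exp (φ * I)‖ = 2 * |Real.sin (t / 2)| := by
    rw [h3]
    have e : (1 : ℂ) + -exp (t * I) = exp ((t / 2 : ℝ) * I) * (-(2 * I) * ((Real.sin (t / 2) : ℝ) : ℂ)) := by
      rw [Complex.ofReal_sin, Complex.sin]
      have e2 : exp (t * I) = exp ((t / 2 : ℝ) * I) * exp ((t / 2 : ℝ) * I) := by
        rw [← Complex.exp_add]; congr 1; push_cast; ring
      have e3 : exp ((t / 2 : ℝ) * I) * exp (-((t / 2 : ℝ) : ℂ) * I) = 1 := by
        rw [← Complex.exp_add]; simp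
      have hI : I * I = -1 := Complex.I_mul_I
      rw [e2]
      linear_combination (-1) * e3 + (exp ((t / 2 : ℝ) * I) * exp (-((t / 2 : ℝ) : ℂ) * I) -
        exp ((t / 2 : ℝ) * I) * exp ((t / 2 : ℝ) * I)) * hI
    rw [e, norm_mul, Complex.norm_exp_ofReal_mul_I, norm_mul, Complex.norm_real]
    simp
  rw [h4]
  have h5 : 2 / Real.pi * (|t| / 2) ≤ Real.sin (|t| / 2) :=
    Real.mul_le_sin (by positivity) (by linarith)
  have h6 : Real.sin (|t| / 2) ≤ |Real.sin (t / 2)| := by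
    rcases abs_choice t with h | h
    · rw [h]; exact le_abs_self _
    · rw [h, neg_div, Real.sin_neg]; exact neg_le_abs _
  have h7 : 2 / Real.pi * δ ≤ 2 * (2 / Real.pi * (|t| / 2)) := by
    have : 2 * (2 / Real.pi * (|t| / 2)) = 2 / Real.pi * |t| := by ring
    rw [this]
    exact mul_le_mul_of_nonneg_left h.le (by positivity)
  linarith

/-- for almost every point of the circle `|1 + ζ^{2^k}| ≥ 2 · 2^{-k}` for large `k` -/
theorem ae_far : ∀ᵐ θ : ℝ ∂(volume.restrict (Ioc (0 : ℝ) (2 * Real.pi))), ∀ᶠ k : ℕ in atTop,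
    2 * (1 / 2 : ℝ) ^ k ≤ ‖1 + exp (θ * I) ^ (2 ^ k)‖ := by
  have : Fact (0 < 2 * Real.pi) := ⟨by positivity⟩
  have hpi := Real.pi_pos
  -- on the circle
  have h1 : ∀ᵐ x : AddCircle (2 * Real.pi), ∀ᶠ k : ℕ in atTop,
      x ∉ (fun y : AddCircle (2 * Real.pi) => (2 ^ (k + 1)) • y) ⁻¹'
        closedBall ((Real.pi : ℝ) : AddCircle (2 * Real.pi)) (Real.pi * (1 / 2) ^ (k + 1)) := by
    apply ae_eventually_notMem
    have hle : ∀ k : ℕ, volume ((fun y : AddCircle (2 * Real.pi) => (2 ^ (k + 1)) • y) ⁻¹'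
        closedBall ((Real.pi : ℝ) : AddCircle (2 * Real.pi)) (Real.pi * (1 / 2) ^ (k + 1))) ≤
        ENNReal.ofReal (2 * Real.pi * (1 / 2) ^ (k + 1)) := by
      intro k
      have hmp := (AddCircle.ergodic_nsmul (T := 2 * Real.pi) (n := 2 ^ (k + 1))
        (Nat.one_lt_two_pow (by omega))).toMeasurePreserving
      rw [hmp.measure_preimage measurableSet_closedBall.nullMeasurableSet,
        AddCircle.volume_closedBall]
      apply ENNReal.ofReal_le_ofReal
      refine (min_le_right _ _).trans (le_of_eq (by ring))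
    refine ne_top_of_le_ne_top ?_ (ENNReal.tsum_le_tsum hle)
    have hs : Summable fun k : ℕ => 2 * Real.pi * (1 / 2 : ℝ) ^ (k + 1) := by
      apply Summable.mul_left
      exact (summable_nat_add_iff 1).2 (summable_geometric_of_lt_one (by norm_num) (by norm_num))
    rw [← ENNReal.ofReal_tsum_of_nonneg (fun k => by positivity) hs]
    exact ENNReal.ofReal_ne_top
  have hmk := AddCircle.measurePreserving_mk (2 * Real.pi) 0
  rw [zero_add] at hmk
  have h2 := hmk.quasiMeasurePreserving.ae h1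
  filter_upwards [h2] with θ hθ
  obtain ⟨K, hK⟩ := eventually_atTop.1 hθ
  refine eventually_atTop.2 ⟨K + 1, fun k hk => ?_⟩
  obtain ⟨j, rfl⟩ : ∃ j, k = j + 1 := ⟨k - 1, by omega⟩
  have h3 := hK j (by omega)
  rw [mem_preimage, mem_closedBall, dist_eq_norm, not_le] at h3
  have e1 : ((2 ^ (j + 1)) • ((θ : ℝ) : AddCircle (2 * Real.pi)) -
      ((Real.pi : ℝ) : AddCircle (2 * Real.pi))) =
      ((((2 ^ (j + 1) : ℕ) : ℝ) * θ - Real.pi : ℝ) : AddCircle (2 * Real.pi)) := by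
    rw [AddCircle.coe_sub, ← nsmul_eq_mul, AddCircle.coe_nsmul]
  have h4 : Real.pi * (1 / 2) ^ (j + 1) <
      ‖((((2 ^ (j + 1) : ℕ) : ℝ) * θ - Real.pi : ℝ) : AddCircle (2 * Real.pi))‖ := by
    rw [← e1]; exact h3
  have h5 := one_add_exp _ _ h4
  have e2 : exp ((((2 ^ (j + 1) : ℕ) : ℝ) * θ : ℝ) * I) = exp (θ * I) ^ (2 ^ (j + 1)) := by
    rw [← Complex.exp_nat_mul]
    congr 1
    push_cast
    ring
  rw [e2] at h5
  have e3 : 2 / Real.pi * (Real.pi * (1 / 2) ^ (j + 1)) = 2 * (1 / 2 : ℝ) ^ (j + 1) := by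
    field_simp
  rw [e3] at h5
  exact h5

/-! ## The construction -/

section construction

variable {ε : ℕ → ℝ}

open Classical in
/-- the exponent used at time `n` -/
noncomputable def kk (ε : ℕ → ℝ) (n : ℕ) : ℕ :=
  Nat.findGreatest (fun k => ∀ m, n ≤ m → ε m ≤ (1 / 4 : ℝ) ^ k) n

lemma kk_mono : Monotone (kk ε) := by
  classical
  intro n m hnm
  unfold kk
  refine (Nat.findGreatest_mono_left (fun k hk j hj => hk j (hnm.trans hj)) n).trans ?_
  exact Nat.findGreatest_mono_right _ hnm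

lemma kk_spec (h1 : ∀ n, ε n ≤ 1) (n : ℕ) : ε n ≤ (1 / 4 : ℝ) ^ kk ε n := by
  classical
  have := Nat.findGreatest_spec (P := fun k => ∀ m, n ≤ m → ε m ≤ (1 / 4 : ℝ) ^ k) (n := n)
    (Nat.zero_le n) (fun m _ => by simpa using h1 m)
  exact this n le_rfl

lemma kk_tendsto (h : Tendsto ε atTop (𝓝 0)) : Tendsto (kk ε) atTop atTop := by
  classical
  rw [tendsto_atTop_atTop]
  intro K
  have h1 : ∀ᶠ n in atTop, ε n ≤ (1 / 4 : ℝ) ^ K :=
    (h.eventually (gt_mem_nhds (by positivity : (0 : ℝ) < (1 / 4) ^ K))).mono fun n hn => hn.le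
  obtain ⟨N, hN⟩ := eventually_atTop.1 h1
  refine ⟨max N K, fun n hn => ?_⟩
  apply Nat.le_findGreatest ((le_max_right _ _).trans hn)
  intro m hm
  exact hN m ((le_max_left _ _).trans (hn.trans hm))

/-- `F_n` for `n ≥ 1` -/
noncomputable def bigF (ε : ℕ → ℝ) (n : ℕ) (z : ℂ) : ℂ := mob (1 - ε n) (z ^ (2 ^ kk ε n))

/-- the inner functions; index `0` is not used -/
noncomputable def ff (ε : ℕ → ℝ) (n : ℕ) (z : ℂ) : ℂ :=
  if n ≤ 1 then bigF ε n z
  else mob (1 - ε n) (mob (-(1 - ε (n - 1))) z ^ (2 ^ (kk ε n - kk ε (n - 1))))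

lemma abs_lt {n : ℕ} (h : ∀ n, 0 < ε n ∧ ε n < 1) : |1 - ε n| < 1 := by
  rw [_root_.abs_lt]
  have := h n
  constructor <;> linarith

lemma bigF_norm_lt (h : ∀ n, 0 < ε n ∧ ε n < 1) (n : ℕ) {z : ℂ} (hz : ‖z‖ < 1) :
    ‖bigF ε n z‖ < 1 := by
  apply mob_norm_lt (abs_lt h)
  rw [norm_pow]
  exact pow_lt_one₀ (norm_nonneg _) hz (by positivity)

lemma fwd_eq (h : ∀ n, 0 < ε n ∧ ε n < 1) (n : ℕ) {z : ℂ} (hz : ‖z‖ ≤ 1) :
    fwd (ff ε) (n + 1) z = bigF ε (n + 1) z := by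
  induction n with
  | zero =>
    show ff ε 1 (id z) = _
    simp [ff]
  | succ n ih =>
    show ff ε (n + 2) (fwd (ff ε) (n + 1) z) = _
    rw [ih]
    unfold ff
    rw [if_neg (by omega)]
    have hz' : ‖z ^ (2 ^ kk ε (n + 1))‖ ≤ 1 := by
      rw [norm_pow]; exact pow_le_one₀ (norm_nonneg _) hz
    show mob (1 - ε (n + 2)) (mob (-(1 - ε (n + 1))) (mob (1 - ε (n + 1))
      (z ^ (2 ^ kk ε (n + 1)))) ^ (2 ^ (kk ε (n + 2) - kk ε (n + 1)))) = _
    rw [mob_inv (abs_lt h) hz', ← pow_mul, ← pow_add]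
    have : kk ε (n + 1) + (kk ε (n + 2) - kk ε (n + 1)) = kk ε (n + 2) := by
      have := kk_mono (ε := ε) (show n + 1 ≤ n + 2 by omega)
      omega
    rw [this]
    rfl

lemma pow_cont_ball {N : ℕ} {f : ℂ → ℂ} {s : Set ℂ} (hf : MapsTo f s (closedBall 0 1)) :
    MapsTo (fun z => f z ^ N) s (closedBall 0 1) := by
  intro z hz
  have := mem_closedBall_zero_iff.1 (hf hz)
  rw [mem_closedBall_zero_iff, norm_pow]
  exact pow_le_one₀ (norm_nonneg _) this

lemma inner_comp {a b : ℝ} (ha : |a| < 1) (hb : |b| < 1) (N : ℕ) (hN : N ≠ 0) :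
    IsInner (fun z => mob a (mob b z ^ N)) := by
  have hmc : MapsTo (mob b) (closedBall 0 1) (closedBall 0 1) := by
    intro z hz
    rw [mem_closedBall_zero_iff] at hz ⊢
    rcases hz.lt_or_eq with h | h
    · exact (mob_norm_lt hb h).le
    · exact (mob_norm_eq hb h).le
  apply isInner_of
  · apply (mob_differentiableOn ha).comp ((mob_differentiableOn hb).pow N)
    intro z hz
    rw [mem_ball_zero_iff] at hz ⊢
    rw [Pi.pow_apply, norm_pow]
    exact pow_lt_one₀ (norm_nonneg _) (mob_norm_lt hb hz) hN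
  · intro z hz
    rw [mem_ball_zero_iff] at hz ⊢
    apply mob_norm_lt ha
    rw [norm_pow]
    exact pow_lt_one₀ (norm_nonneg _) (mob_norm_lt hb hz) hN
  · apply (mob_continuousOn ha).comp ((mob_continuousOn hb).pow N)
    exact pow_cont_ball hmc
  · intro z hz
    apply mob_norm_eq ha
    rw [norm_pow, mob_norm_eq hb hz, one_pow]

lemma bigF_continuousOn (h : ∀ n, 0 < ε n ∧ ε n < 1) (n : ℕ) :
    ContinuousOn (bigF ε n) (closedBall 0 1) := by
  apply (mob_continuousOn (abs_lt h)).comp ((continuousOn_id).pow _)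
  exact pow_cont_ball (mapsTo_id _)

lemma ff_inner (h : ∀ n, 0 < ε n ∧ ε n < 1) (n : ℕ) : IsInner (ff ε n) := by
  by_cases hn : n ≤ 1
  · have e : ff ε n = fun z => mob (1 - ε n) (mob 0 z ^ (2 ^ kk ε n)) := by
      funext z
      simp [ff, hn, bigF, mob]
    rw [e]
    exact inner_comp (abs_lt h) (by simp) _ (by positivity)
  · have e : ff ε n = fun z => mob (1 - ε n) (mob (-(1 - ε (n - 1))) z ^
        (2 ^ (kk ε n - kk ε (n - 1)))) := by
      funext z
      simp [ff, hn]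
    rw [e]
    exact inner_comp (abs_lt h) (by rw [abs_neg]; exact abs_lt h) _ (by positivity)

lemma pow_tendsto (hε : Tendsto ε atTop (𝓝 0)) {z : ℂ} (hz : ‖z‖ < 1) :
    Tendsto (fun n => z ^ (2 ^ kk ε n)) atTop (𝓝 0) := by
  have h1 : Tendsto (fun n => 2 ^ kk ε n) atTop atTop :=
    (tendsto_pow_atTop_atTop_of_one_lt one_lt_two).comp (kk_tendsto hε)
  exact (tendsto_pow_atTop_nhds_zero_of_norm_lt_one hz).comp h1

theorem main (h : ∀ n, 0 < ε n ∧ ε n < 1) (hε : Tendsto ε atTop (𝓝 0)) :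
    (∀ n, 1 ≤ n → IsInner (ff ε n)) ∧ Contracting (fwd (ff ε)) ∧
    InteriorToBoundary (fwd (ff ε)) ∧ (∀ n, 1 ≤ n → fwd (ff ε) n 0 = ((1 - ε n : ℝ) : ℂ)) ∧
    ∀ᵐ θ : ℝ ∂(volume.restrict (Ioc (0 : ℝ) (2 * Real.pi))),
      exp (θ * I) ∈ DenjoyWolffSet (fwd (ff ε)) := by
  have hF0 : ∀ n, bigF ε n 0 = ((1 - ε n : ℝ) : ℂ) := by
    intro n
    simp [bigF, mob]
  refine ⟨fun n _ => ff_inner h n, ?_, ?_, ?_, ?_⟩
  · intro z hz w hw
    rw [mem_ball_zero_iff] at hz hw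
    rw [← tendsto_add_atTop_iff_nat 1]
    have e : ∀ n, hypDist (fwd (ff ε) (n + 1) z) (fwd (ff ε) (n + 1) w) =
        hypDist (z ^ (2 ^ kk ε (n + 1))) (w ^ (2 ^ kk ε (n + 1))) := by
      intro n
      rw [fwd_eq h n hz.le, fwd_eq h n hw.le]
      unfold hypDist bigF
      rw [mob_hyp (abs_lt h)]
      · rw [norm_pow]; exact pow_lt_one₀ (norm_nonneg _) hz (by positivity)
      · rw [norm_pow]; exact pow_lt_one₀ (norm_nonneg _) hw (by positivity)
    simp only [e]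
    have hz' := (pow_tendsto hε hz).comp (tendsto_add_atTop_nat 1)
    have hw' := (pow_tendsto hε hw).comp (tendsto_add_atTop_nat 1)
    have h1 : Tendsto (fun n : ℕ => ‖(z ^ (2 ^ kk ε (n + 1)) - w ^ (2 ^ kk ε (n + 1))) /
        (1 - conj (w ^ (2 ^ kk ε (n + 1))) * z ^ (2 ^ kk ε (n + 1)))‖) atTop (𝓝 0) := by
      have hcw : Tendsto (fun n : ℕ => conj (w ^ (2 ^ kk ε (n + 1)))) atTop (𝓝 (conj 0)) :=
        (Complex.continuous_conj.tendsto 0).comp hw'
      have h2 := ((hz'.sub hw').div (tendsto_const_nhds (x := (1 : ℂ)).sub (hcw.mul hz'))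
        (by simp)).norm
      simpa using h2
    unfold hypDist
    have h3 : Tendsto (fun t : ℝ => Real.log ((1 + t) / (1 - t))) (𝓝 0) (𝓝 0) := by
      have h4 : ContinuousAt (fun t : ℝ => Real.log ((1 + t) / (1 - t))) 0 := by
        apply ContinuousAt.log
        · apply ContinuousAt.div
          · fun_prop
          · fun_prop
          · norm_num
        · norm_num
      have h5 := h4.tendsto
      simpa using h5
    exact h3.comp h1
  · intro z hz
    rw [mem_ball_zero_iff] at hz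
    rw [← tendsto_add_atTop_iff_nat 1]
    have e : ∀ n, ‖fwd (ff ε) (n + 1) z‖ = ‖bigF ε (n + 1) z‖ := fun n => by
      rw [fwd_eq h n hz.le]
    simp only [e]
    have hz' := (pow_tendsto hε hz).comp (tendsto_add_atTop_nat 1)
    have hε' := hε.comp (tendsto_add_atTop_nat 1)
    have ha : Tendsto (fun n : ℕ => ((1 - ε (n + 1) : ℝ) : ℂ)) atTop (𝓝 1) := by
      have : Tendsto (fun n : ℕ => (1 - ε (n + 1) : ℝ)) atTop (𝓝 (1 - 0)) :=
        tendsto_const_nhds.sub hε'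
      rw [sub_zero] at this
      exact_mod_cast (Complex.continuous_ofReal.tendsto 1).comp this
    have h1 : Tendsto (fun n : ℕ => bigF ε (n + 1) z) atTop (𝓝 ((0 + 1) / (1 + 1 * 0))) := by
      unfold bigF mob
      apply Tendsto.div
      · exact hz'.add ha
      · exact tendsto_const_nhds.add (ha.mul hz')
      · simp
    simpa using h1.norm
  · intro n hn
    obtain ⟨j, rfl⟩ : ∃ j, n = j + 1 := ⟨n - 1, by omega⟩
    rw [fwd_eq h j (by simp), hF0]
  · filter_upwards [ae_far] with θ hθ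
    have hn : ‖exp (θ * I)‖ = 1 := Complex.norm_exp_ofReal_mul_I θ
    refine ⟨hn, fun n => bigF ε n (exp (θ * I)), ?_, ?_⟩
    · intro n hn1
      obtain ⟨j, rfl⟩ : ∃ j, n = j + 1 := ⟨n - 1, by omega⟩
      have h1 := isInner_of.radial (bigF_continuousOn h (j + 1)) hn
      refine h1.congr' ?_
      have h3 : ∀ᶠ r : ℝ in 𝓝[<] 1, 0 < r := by
        apply nhdsWithin_le_nhds
        exact lt_mem_nhds one_pos
      filter_upwards [h3, self_mem_nhdsWithin] with r hr hr1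
      rw [fwd_eq h j]
      rw [norm_mul, hn, mul_one, Complex.norm_real, Real.norm_eq_abs, abs_of_pos hr]
      exact (mem_Iio.1 hr1).le
    · have hk : ∀ᶠ n in atTop, 2 * (1 / 2 : ℝ) ^ kk ε n ≤
          ‖1 + exp (θ * I) ^ (2 ^ kk ε n)‖ := (kk_tendsto hε).eventually hθ
      have hb : ∀ᶠ n in atTop, ‖bigF ε n (exp (θ * I)) - fwd (ff ε) n 0‖ ≤
          2 * (1 / 2 : ℝ) ^ kk ε n + ε n := by
        filter_upwards [hk, eventually_ge_atTop 1] with n hn2 hn1
        obtain ⟨j, rfl⟩ : ∃ j, n = j + 1 := ⟨n - 1, by omega⟩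
        rw [fwd_eq h j (by simp), hF0]
        obtain ⟨w, hw⟩ : ∃ w, w = exp (θ * I) ^ (2 ^ kk ε (j + 1)) := ⟨_, rfl⟩
        have hwn : ‖w‖ = 1 := by rw [hw, norm_pow, hn, one_pow]
        rw [← hw] at hn2
        obtain ⟨q, hq⟩ : ∃ q : ℝ, q = (1 / 2 : ℝ) ^ kk ε (j + 1) := ⟨_, rfl⟩
        have hq0 : 0 < q := by rw [hq]; positivity
        have hq1 : q ≤ 1 := by rw [hq]; exact pow_le_one₀ (by norm_num) (by norm_num)
        have hεq : ε (j + 1) ≤ q ^ 2 := by
          have := kk_spec (ε := ε) (fun n => (h n).2.le) (j + 1)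
          rw [hq, ← pow_mul, mul_comm, pow_mul]
          norm_num
          norm_num at this
          exact this
        rw [← hq] at hn2 ⊢
        obtain ⟨e, he⟩ : ∃ e, e = ε (j + 1) := ⟨_, rfl⟩
        have he0 : 0 < e := by rw [he]; exact (h _).1
        have heq : bigF ε (j + 1) (exp (θ * I)) = mob (1 - e) w := by rw [he, hw]; rfl
        rw [← he] at hεq ⊢
        rw [heq]
        have hab : |1 - e| < 1 := by rw [he]; exact abs_lt h
        have hd := den_ne hab hwn.le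
        have hd1 : q ≤ ‖1 + ((1 - e : ℝ) : ℂ) * w‖ := by
          have e1 : 1 + ((1 - e : ℝ) : ℂ) * w = (1 + w) - (e : ℂ) * w := by push_cast; ring
          rw [e1]
          have h1 := norm_sub_norm_le (1 + w) ((e : ℂ) * w)
          rw [norm_mul, hwn, mul_one, Complex.norm_real, Real.norm_eq_abs, abs_of_pos he0] at h1
          nlinarith
        have h1 : mob (1 - e) w - 1 = (e : ℂ) * (w - 1) / (1 + ((1 - e : ℝ) : ℂ) * w) := by
          unfold mob
          rw [div_sub_one hd]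
          congr 1
          push_cast
          ring
        have h2 : ‖mob (1 - e) w - 1‖ ≤ 2 * q := by
          rw [h1, norm_div, norm_mul, Complex.norm_real, Real.norm_eq_abs, abs_of_pos he0]
          rw [div_le_iff₀ (by linarith)]
          have h3 : ‖w - 1‖ ≤ 2 := by
            have := norm_sub_le w 1
            rw [hwn, norm_one] at this
            linarith
          calc e * ‖w - 1‖ ≤ q ^ 2 * 2 := by gcongr
            _ = 2 * q * q := by ring
            _ ≤ 2 * q * ‖1 + ((1 - e : ℝ) : ℂ) * w‖ := by gcongr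
        have h3 : mob (1 - e) w - ((1 - e : ℝ) : ℂ) = (mob (1 - e) w - 1) + (e : ℂ) := by
          push_cast; ring
        rw [h3]
        refine (norm_add_le _ _).trans ?_
        rw [Complex.norm_real, Real.norm_eq_abs, abs_of_pos he0]
        linarith
      have hlim : Tendsto (fun n => 2 * (1 / 2 : ℝ) ^ kk ε n + ε n) atTop (𝓝 0) := by
        have h1 : Tendsto (fun n => (1 / 2 : ℝ) ^ kk ε n) atTop (𝓝 0) :=
          (tendsto_pow_atTop_nhds_zero_of_lt_one (by norm_num) (by norm_num)).comp (kk_tendsto hε)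
        have h2 := (h1.const_mul 2).add hε
        simpa using h2
      exact squeeze_zero' (Eventually.of_forall fun n => norm_nonneg _) hb hlim

end construction

/-- Disproof of Q1. There are inner functions `f_1, f_2, ...` whose forward composition `(F_n)` is
contracting, with interior orbits converging to the boundary and divergent series
`∑ (1 - |F_n(0)|)`, such that almost every point of the circle belongs to the Denjoy-Wolff set.
More precisely, for every sequence `ε_n ∈ (0,1)` with `ε_n → 0` there are such inner functions with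
`F_n(0) = 1 - ε_n` for all `n ≥ 1`. -/
theorem result :
    (∃ f : ℕ → ℂ → ℂ, (∀ n, 1 ≤ n → IsInner (f n)) ∧ Contracting (fwd f) ∧
      InteriorToBoundary (fwd f) ∧ ¬ Summable (fun n => 1 - ‖fwd f n 0‖) ∧
      ∀ᵐ θ : ℝ ∂(volume.restrict (Ioc (0 : ℝ) (2 * Real.pi))),
        exp (θ * I) ∈ DenjoyWolffSet (fwd f)) ∧
    ∀ ε : ℕ → ℝ, (∀ n, 0 < ε n ∧ ε n < 1) → Tendsto ε atTop (𝓝 0) →
      ∃ f : ℕ → ℂ → ℂ, (∀ n, 1 ≤ n → IsInner (f n)) ∧ Contracting (fwd f) ∧
        InteriorToBoundary (fwd f) ∧ (∀ n, 1 ≤ n → fwd f n 0 = ((1 - ε n : ℝ) : ℂ)) ∧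
        ∀ᵐ θ : ℝ ∂(volume.restrict (Ioc (0 : ℝ) (2 * Real.pi))),
          exp (θ * I) ∈ DenjoyWolffSet (fwd f) := by
  have key : ∀ ε : ℕ → ℝ, (∀ n, 0 < ε n ∧ ε n < 1) → Tendsto ε atTop (𝓝 0) →
      ∃ f : ℕ → ℂ → ℂ, (∀ n, 1 ≤ n → IsInner (f n)) ∧ Contracting (fwd f) ∧
        InteriorToBoundary (fwd f) ∧ (∀ n, 1 ≤ n → fwd f n 0 = ((1 - ε n : ℝ) : ℂ)) ∧
        ∀ᵐ θ : ℝ ∂(volume.restrict (Ioc (0 : ℝ) (2 * Real.pi))),
          exp (θ * I) ∈ DenjoyWolffSet (fwd f) := fun ε h hε => ⟨ff ε, main h hε⟩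
  refine ⟨?_, key⟩
  obtain ⟨f, h1, h2, h3, h4, h5⟩ := key (fun n => 1 / ((n : ℝ) + 2)) (fun n => ⟨by positivity, by
    rw [div_lt_one (by positivity)]; linarith [(Nat.cast_nonneg n : (0 : ℝ) ≤ n)]⟩) (by
    have := tendsto_one_div_add_atTop_nhds_zero_nat (𝕜 := ℝ)
    have h2 := this.comp (tendsto_add_atTop_nat 1)
    refine h2.congr fun n => ?_
    simp only [Function.comp_apply]
    push_cast
    congr 1
    ring)
  refine ⟨f, h1, h2, h3, ?_, h5⟩
  intro hs
  have hs1 := (summable_nat_add_iff 1).2 hs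
  have e : ∀ n : ℕ, 1 - ‖fwd f (n + 1) 0‖ = 1 / ((n + 3 : ℕ) : ℝ) := by
    intro n
    rw [h4 (n + 1) (by omega), Complex.norm_real, Real.norm_eq_abs, abs_of_nonneg]
    · push_cast
      ring
    · rw [sub_nonneg, div_le_one (by positivity)]
      push_cast
      linarith [(Nat.cast_nonneg n : (0 : ℝ) ≤ n)]
  simp only [e] at hs1
  have hs2 := (summable_nat_add_iff (f := fun n : ℕ => 1 / (n : ℝ)) 3).1 hs1
  exact Real.not_summable_one_div_natCast hs2

end Pool.Agent.Results.MP_9b5b1e_an.DivergentFullMeasure
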